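import Mathlib

/-!
# Pillai primes in residue classes

A prime `p` is a Pillai prime if `p ∣ n! + 1` and `p ≢ 1 (mod n)` for some `n ≥ 1`.  We show that
every prime factor of `(2 * 11 ^ k)! - 1` is a Pillai prime; that for every `m ≥ 3` and every
subgroup `H` of the units modulo `m` which does not contain `-1` there are infinitely many Pillai
primes whose residue class is not in `H`; and that there are infinitely many Pillai primes in each
of the classes `1` and `3` modulo `4`.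
-/

set_option autoImplicit false

namespace Pool.Agent.Helper45.Pillai

open Nat Finset

/-- Pillai primes -/
def Pillai (p : ℕ) : Prop :=
  p.Prime ∧ ∃ n : ℕ, 0 < n ∧ p ∣ n ! + 1 ∧ ¬ Nat.ModEq n p 1

/-- Wilson's theorem for products of two factorials -/
theorem wilson (p : ℕ) [Fact p.Prime] (n : ℕ) (hn : n < p) :
    ((n ! : ℕ) : ZMod p) * ((p - 1 - n) ! : ℕ) = (-1) ^ (n + 1) := by
  induction n with
  | zero => simp [ZMod.wilsons_lemma]
  | succ n ih =>
    have h1 := ih (by omega)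
    have h2 : (p - 1 - n) ! = (p - 1 - n) * (p - 1 - (n + 1)) ! := by
      rw [show p - 1 - n = (p - 1 - (n + 1)) + 1 by omega, Nat.factorial_succ]
    have h3 : ((p - 1 - n : ℕ) : ZMod p) = -((n : ZMod p) + 1) := by
      have : ((p - 1 - n : ℕ) : ZMod p) + ((n : ZMod p) + 1) = 0 := by
        have e : (p - 1 - n) + (n + 1) = p := by omega
        have e' := congrArg (fun t : ℕ => (t : ZMod p)) e
        simp only [Nat.cast_add, Nat.cast_one, ZMod.natCast_self] at e'
        exact e'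
      exact eq_neg_of_add_eq_zero_left this
    rw [h2, Nat.cast_mul, h3] at h1
    rw [Nat.factorial_succ, Nat.cast_mul, Nat.cast_add, Nat.cast_one]
    rw [pow_succ, ← h1]
    ring

theorem dvd_iff_cast (p a : ℕ) : p ∣ a + 1 ↔ ((a : ℕ) : ZMod p) = -1 := by
  rw [← ZMod.natCast_eq_zero_iff, Nat.cast_add, Nat.cast_one, add_eq_zero_iff_eq_neg]

theorem not_modEq {n p : ℕ} (hp : 1 ≤ p) (h : ¬ n ∣ p - 1) : ¬ Nat.ModEq n p 1 := by
  intro h'
  exact h ((Nat.modEq_iff_dvd' hp).1 h'.symm)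

/-- if `n` is even and `p` divides `n! - 1`, then `p` is a Pillai prime or `p = n + d + 1` with
`d ∣ n` -/
theorem pillai_of_even (n p : ℕ) (hn : 0 < n) (he : Even n) (hp : p.Prime) (hd : p ∣ Nat.factorial n - 1) :
    Pillai p ∨ ∃ d, d ∣ n ∧ p = n + d + 1 := by
  have : Fact p.Prime := ⟨hp⟩
  have hfac : 1 ≤ n ! := Nat.factorial_pos n
  have h1 : ((n ! : ℕ) : ZMod p) = 1 := by
    have := (ZMod.natCast_eq_zero_iff (Nat.factorial n - 1) p).2 hd
    rw [Nat.cast_sub hfac, Nat.cast_one, sub_eq_zero] at this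
    exact this
  have hnp : n < p := by
    by_contra hle
    push Not at hle
    have : p ∣ n ! := (hp.dvd_factorial).2 hle
    rw [(ZMod.natCast_eq_zero_iff _ _).2 this] at h1
    exact zero_ne_one h1
  have hw := wilson p n hnp
  rw [h1, one_mul, pow_succ, he.neg_one_pow, one_mul] at hw
  have hm0 : p - 1 - n ≠ 0 := by
    intro h0
    rw [h0, Nat.factorial_zero, Nat.cast_one] at hw
    have h2 : ((2 : ℕ) : ZMod p) = 0 := by
      have : (1 : ZMod p) + 1 = 0 := by nth_rw 2 [hw]; ring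
      rw [← this]; norm_num
    have h3 := (Nat.prime_dvd_prime_iff_eq hp Nat.prime_two).1 ((ZMod.natCast_eq_zero_iff _ _).1 h2)
    obtain ⟨t, ht⟩ := he
    omega
  by_cases hdiv : (p - 1 - n) ∣ p - 1
  · right
    refine ⟨p - 1 - n, ?_, by omega⟩
    have h3 := Nat.dvd_sub hdiv (dvd_refl (p - 1 - n))
    rwa [show p - 1 - (p - 1 - n) = n by omega] at h3
  · left
    exact ⟨hp, p - 1 - n, Nat.pos_of_ne_zero hm0, (dvd_iff_cast p _).2 hw,
      not_modEq hp.one_lt.le hdiv⟩

theorem pow_mod {q r : ℕ} (h : q ≡ 1 [MOD r]) (k : ℕ) : q ^ k ≡ 1 [MOD r] := by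
  have := h.pow k
  rwa [one_pow] at this

/-- every prime factor of `(2 * 11 ^ k)! - 1` is a Pillai prime -/
theorem pillai_eleven (k : ℕ) (hk : 0 < k) (p : ℕ) (hp : p.Prime)
    (hd : p ∣ Nat.factorial (2 * 11 ^ k) - 1) : Pillai p := by
  have hpos : 0 < 11 ^ k := Nat.pos_of_ne_zero (by positivity)
  rcases pillai_of_even (2 * 11 ^ k) p (by omega) ⟨11 ^ k, by ring⟩ hp hd with h | ⟨d, hdn, hpd⟩
  · exact h
  exfalso
  have h11 : 11 ≤ 11 ^ k := by
    calc 11 = 11 ^ 1 := (pow_one 11).symm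
      _ ≤ 11 ^ k := Nat.pow_le_pow_right (by norm_num) hk
  obtain ⟨a, b, ha, hb, rfl⟩ := (Nat.dvd_mul).1 hdn
  obtain ⟨i, -, rfl⟩ := (Nat.dvd_prime_pow (by norm_num : Nat.Prime 11)).1 hb
  rcases (Nat.dvd_prime Nat.prime_two).1 ha with rfl | rfl
  · -- `p` is even
    have ho : 11 ^ i % 2 = 1 := by
      have := pow_mod (q := 11) (r := 2) (by decide) i
      exact this
    have h2 : 2 ∣ p := by omega
    have := (Nat.prime_dvd_prime_iff_eq Nat.prime_two hp).1 h2
    omega
  · have e1 : 11 ^ i % 5 = 1 := pow_mod (q := 11) (r := 5) (by decide) i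
    have e2 : 11 ^ k % 5 = 1 := pow_mod (q := 11) (r := 5) (by decide) k
    have h5 : 5 ∣ p := by omega
    have := (Nat.prime_dvd_prime_iff_eq (by norm_num) hp).1 h5
    omega

/-- a product of primes with classes in `H` has its class in `H` -/
theorem class_mem {m : ℕ} (H : Subgroup (ZMod m)ˣ) (a : ℕ) (ha : a ≠ 0)
    (h : ∀ p, p.Prime → p ∣ a → ∃ u ∈ H, ((u : (ZMod m)ˣ) : ZMod m) = (p : ZMod m)) :
    ∃ u ∈ H, ((u : (ZMod m)ˣ) : ZMod m) = (a : ZMod m) := by
  induction a using Nat.strong_induction_on with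
  | _ a ih =>
    by_cases h1 : a = 1
    · exact ⟨1, H.one_mem, by rw [h1]; simp⟩
    · have hp := Nat.minFac_prime h1
      have hdvd := Nat.minFac_dvd a
      obtain ⟨b, hb⟩ := hdvd
      have hb0 : b ≠ 0 := by rintro rfl; exact ha (by rw [hb, mul_zero])
      have hlt : b < a := by
        rw [hb]
        exact lt_mul_left (Nat.pos_of_ne_zero hb0) hp.one_lt
      obtain ⟨u, hu, hu'⟩ := h _ hp (Nat.minFac_dvd a)
      obtain ⟨v, hv, hv'⟩ := ih b hlt hb0 fun p hpp hpb =>
        h p hpp (hpb.trans ⟨a.minFac, by rw [mul_comm]; exact hb⟩)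
      refine ⟨u * v, H.mul_mem hu hv, ?_⟩
      rw [Units.val_mul, hu', hv', ← Nat.cast_mul, ← hb]

/-- infinitely many Pillai primes outside a subgroup without `-1` -/
theorem infinite_outside (m : ℕ) (hm : 3 ≤ m) (H : Subgroup (ZMod m)ˣ) (hH : -1 ∉ H) :
    {p : ℕ | Pillai p ∧ ∀ u ∈ H, ((u : (ZMod m)ˣ) : ZMod m) ≠ (p : ZMod m)}.Infinite := by
  refine Set.infinite_of_forall_exists_gt fun N => ?_
  set k := N + m + 1 with hk
  have hk11 : k < 11 ^ k := Nat.lt_pow_self (by norm_num)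
  set n := 2 * 11 ^ k with hn
  have hfac : 1 ≤ n ! := Nat.factorial_pos n
  have hbig : n ≤ n ! := Nat.self_le_factorial n
  have hne : Nat.factorial n - 1 ≠ 0 := by omega
  by_contra hcon
  push Not at hcon
  apply hH
  have hall : ∀ p, p.Prime → p ∣ Nat.factorial n - 1 →
      ∃ u ∈ H, ((u : (ZMod m)ˣ) : ZMod m) = (p : ZMod m) := by
    intro p hp hd
    by_contra hno
    push Not at hno
    have hpn : n < p := by
      by_contra hle
      push Not at hle
      have h1 : p ∣ n ! := (hp.dvd_factorial).2 hle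
      have h2 : p ∣ 1 := by
        have := (Nat.dvd_sub h1 hd)
        rwa [show Nat.factorial n - (Nat.factorial n - 1) = 1 by omega] at this
      exact hp.one_lt.ne' (Nat.dvd_one.1 h2)
    have := hcon p ⟨pillai_eleven k (by omega) p hp hd, hno⟩
    omega
  obtain ⟨u, hu, hu'⟩ := class_mem H (Nat.factorial n - 1) hne hall
  have h0 : ((n ! : ℕ) : ZMod m) = 0 := by
    rw [ZMod.natCast_eq_zero_iff]
    exact Nat.dvd_factorial (by omega) (by omega)
  rw [Nat.cast_sub hfac, h0, Nat.cast_one, zero_sub] at hu'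
  have : u = -1 := by
    ext
    rw [hu']
    simp
  rwa [this] at hu

/-- the product `1 * 3 * 5 * ... * (2 j - 1)` -/
def dfac (j : ℕ) : ℕ := ∏ i ∈ range j, (2 * i + 1)

theorem half_factorial (h j : ℕ) (p : ℕ) (hp : p = 2 * h + 1) :
    (((h + j) ! : ℕ) : ZMod p) * 2 ^ j = ((h ! : ℕ) : ZMod p) * (dfac j : ℕ) := by
  induction j with
  | zero => simp [dfac]
  | succ j ih =>
    have e1 : (2 : ZMod p) * ((h : ZMod p) + j + 1) = 2 * j + 1 := by
      have : ((2 * h + 1 : ℕ) : ZMod p) = 0 := by rw [← hp]; exact ZMod.natCast_self p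
      push_cast at this
      linear_combination this
    have e2 : dfac (j + 1) = dfac j * (2 * j + 1) := by
      unfold dfac
      rw [Finset.prod_range_succ]
    rw [show h + (j + 1) = (h + j) + 1 by ring, Nat.factorial_succ, e2]
    push_cast
    rw [pow_succ]
    linear_combination (2 * (j : ZMod p) + 1) * ih +
      (((h + j) ! : ℕ) : ZMod p) * 2 ^ j * e1

theorem dfac_odd (j : ℕ) : dfac j % 2 = 1 := by
  induction j with
  | zero => rfl
  | succ j ih =>
    unfold dfac at *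
    rw [Finset.prod_range_succ, Nat.mul_mod, ih]
    omega

/-- if `j` is even and `p` divides `(1 * 3 * ... * (2 j - 1)) ^ 2 + 4 ^ j`, then `p` is a Pillai
prime congruent to `1` modulo `4`, or `p = 2 j + 1`, or `p = 2 j + 2 d + 1` with `d ∣ 2 j` -/
theorem pillai_of_dfac (j p : ℕ) (hj : 0 < j) (he : Even j) (hp : p.Prime)
    (hd : p ∣ dfac j ^ 2 + 4 ^ j) :
    p % 4 = 1 ∧ 2 * j + 1 ≤ p ∧
      (Pillai p ∨ p = 2 * j + 1 ∨ ∃ d, d ∣ 2 * j ∧ p = 2 * j + 2 * d + 1) := by
  have : Fact p.Prime := ⟨hp⟩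
  have hodd : p ≠ 2 := by
    rintro rfl
    have h1 := dfac_odd j
    have h2 : (4 ^ j) % 2 = 0 := by
      rw [Nat.pow_mod]
      have : (4 % 2 : ℕ) = 0 := rfl
      rw [this, zero_pow hj.ne', Nat.zero_mod]
    have h3 : (dfac j ^ 2) % 2 = 1 := by rw [Nat.pow_mod, h1]
    omega
  have hp2 : p % 2 = 1 := hp.eq_two_or_odd.resolve_left hodd
  have h2ne : (2 : ZMod p) ≠ 0 := by
    intro h
    have h' : ((2 : ℕ) : ZMod p) = 0 := by exact_mod_cast h
    exact hodd ((Nat.prime_dvd_prime_iff_eq hp Nat.prime_two).1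
      ((ZMod.natCast_eq_zero_iff _ _).1 h'))
  have h4ne : (4 : ZMod p) ^ j ≠ 0 := by
    have : (4 : ZMod p) = 2 ^ 2 := by norm_num
    rw [this]
    exact pow_ne_zero _ (pow_ne_zero _ h2ne)
  have hcast : ((dfac j : ℕ) : ZMod p) ^ 2 + 4 ^ j = 0 := by
    have := (ZMod.natCast_eq_zero_iff _ _).2 hd
    push_cast at this
    exact this
  -- `p ≥ 2 j + 1`
  have hlow : 2 * j + 1 ≤ p := by
    by_contra hlt
    push Not at hlt
    have hdd : p ∣ dfac j := by
      unfold dfac
      have hmem : (p - 1) / 2 ∈ range j := by rw [Finset.mem_range]; omega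
      have := Finset.dvd_prod_of_mem (fun i => 2 * i + 1) hmem
      rwa [show 2 * ((p - 1) / 2) + 1 = p by omega] at this
    rw [(ZMod.natCast_eq_zero_iff _ _).2 hdd] at hcast
    apply h4ne
    linear_combination hcast
  -- `p ≡ 1 (mod 4)`
  have hsq : IsSquare (-1 : ZMod p) := by
    refine ⟨(dfac j : ZMod p) / 2 ^ j, ?_⟩
    have h4 : (4 : ZMod p) ^ j = 2 ^ j * 2 ^ j := by
      rw [← mul_pow]; norm_num
    field_simp
    rw [h4] at hcast
    linear_combination -hcast
  have hmod : p % 4 = 1 := by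
    have := ZMod.exists_sq_eq_neg_one_iff.1 hsq
    omega
  refine ⟨hmod, hlow, ?_⟩
  obtain ⟨h, hh⟩ : ∃ h, p = 2 * h + 1 := ⟨(p - 1) / 2, by omega⟩
  have hheven : Even h := by
    rw [Nat.even_iff]; omega
  by_cases hjh : j = h
  · right; left; omega
  have hjlt : j < h := by omega
  have hw := wilson p h (by omega)
  rw [show p - 1 - h = h by omega, pow_succ, hheven.neg_one_pow, one_mul] at hw
  have hhf := half_factorial h j p hh
  have hsqr : (((h + j) ! : ℕ) : ZMod p) ^ 2 = 1 := by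
    have h4 : (4 : ZMod p) ^ j = 2 ^ j * 2 ^ j := by
      rw [← mul_pow]; norm_num
    have h5 : (((h + j) ! : ℕ) : ZMod p) ^ 2 * 4 ^ j = 4 ^ j := by
      have h6 : ((((h + j) ! : ℕ) : ZMod p) * 2 ^ j) ^ 2 =
          (((h ! : ℕ) : ZMod p) * (dfac j : ℕ)) ^ 2 := by rw [hhf]
      rw [h4]
      rw [h4] at hcast
      linear_combination h6 + (dfac j : ZMod p) ^ 2 * hw - hcast
    exact mul_right_cancel₀ h4ne (by rw [h5, one_mul])
  rcases sq_eq_one_iff.1 hsqr with h1 | h1
  · -- use `n = h - j`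
    have hw2 := wilson p (h - j) (by omega)
    rw [show p - 1 - (h - j) = h + j by omega, h1, mul_one, pow_succ] at hw2
    have hev : Even (h - j) := (Nat.even_sub hjlt.le).2 (by simp [hheven, he])
    rw [hev.neg_one_pow, one_mul] at hw2
    by_cases hdiv : (h - j) ∣ p - 1
    · right; right
      refine ⟨h - j, ?_, by omega⟩
      have h3 := Nat.dvd_sub hdiv ((dvd_refl (h - j)).mul_left 2)
      rwa [show p - 1 - 2 * (h - j) = 2 * j by omega] at h3
    · left
      exact ⟨hp, h - j, by omega, (dvd_iff_cast p _).2 hw2, not_modEq hp.one_lt.le hdiv⟩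
  · -- use `n = h + j`
    left
    refine ⟨hp, h + j, by omega, (dvd_iff_cast p _).2 h1, not_modEq hp.one_lt.le ?_⟩
    rintro ⟨c, hc⟩
    have hc2 : c ≠ 0 := by rintro rfl; omega
    have hc1 : c = 1 := by
      by_contra hne
      have : 2 ≤ c := by omega
      have : (h + j) * 2 ≤ (h + j) * c := Nat.mul_le_mul_left _ this
      omega
    subst hc1
    omega

/-- every prime factor of `(1 * 3 * ... * (2 j - 1)) ^ 2 + 4 ^ j`, `j = 2 * 8191 ^ k`, is a Pillai
prime congruent to `1` modulo `4` -/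
theorem pillai_dfac (k : ℕ) (hk : 0 < k) (p : ℕ) (hp : p.Prime)
    (hd : p ∣ dfac (2 * 8191 ^ k) ^ 2 + 4 ^ (2 * 8191 ^ k)) :
    p % 4 = 1 ∧ 4 * 8191 ^ k < p ∧ Pillai p := by
  have hq : Nat.Prime 8191 := by norm_num
  have hpos : 0 < 8191 ^ k := Nat.pos_of_ne_zero (by positivity)
  have hbig : 8191 ≤ 8191 ^ k := by
    calc 8191 = 8191 ^ 1 := (pow_one _).symm
      _ ≤ 8191 ^ k := Nat.pow_le_pow_right (by norm_num) hk
  obtain ⟨h1, h2, h3⟩ := pillai_of_dfac (2 * 8191 ^ k) p (by omega) ⟨8191 ^ k, by ring⟩ hp hd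
  refine ⟨h1, by omega, ?_⟩
  rcases h3 with h | h | ⟨d, hdn, hpd⟩
  · exact h
  · exfalso
    have e2 : 8191 ^ k % 5 = 1 := pow_mod (q := 8191) (r := 5) (by decide) k
    have h5 : 5 ∣ p := by omega
    have := (Nat.prime_dvd_prime_iff_eq (by norm_num) hp).1 h5
    omega
  · exfalso
    rw [show 2 * (2 * 8191 ^ k) = 2 ^ 2 * 8191 ^ k by ring] at hdn
    obtain ⟨a, b, ha, hb, rfl⟩ := (Nat.dvd_mul).1 hdn
    obtain ⟨i, -, rfl⟩ := (Nat.dvd_prime_pow hq).1 hb
    obtain ⟨t, ht, rfl⟩ := (Nat.dvd_prime_pow Nat.prime_two).1 ha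
    interval_cases t
    · have e1 : 8191 ^ i % 7 = 1 := pow_mod (q := 8191) (r := 7) (by decide) i
      have e2 : 8191 ^ k % 7 = 1 := pow_mod (q := 8191) (r := 7) (by decide) k
      have h5 : 7 ∣ p := by omega
      have := (Nat.prime_dvd_prime_iff_eq (by norm_num) hp).1 h5
      omega
    · have e1 : 8191 ^ i % 3 = 1 := pow_mod (q := 8191) (r := 3) (by decide) i
      have e2 : 8191 ^ k % 3 = 1 := pow_mod (q := 8191) (r := 3) (by decide) k
      have h5 : 3 ∣ p := by omega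
      have := (Nat.prime_dvd_prime_iff_eq (by norm_num) hp).1 h5
      omega
    · have e1 : 8191 ^ i % 13 = 1 := pow_mod (q := 8191) (r := 13) (by decide) i
      have e2 : 8191 ^ k % 13 = 1 := pow_mod (q := 8191) (r := 13) (by decide) k
      have h5 : 13 ∣ p := by omega
      have := (Nat.prime_dvd_prime_iff_eq (by norm_num) hp).1 h5
      omega

theorem infinite_one : {p : ℕ | Pillai p ∧ p % 4 = 1}.Infinite := by
  refine Set.infinite_of_forall_exists_gt fun N => ?_
  have hlt : N + 1 < 8191 ^ (N + 1) := Nat.lt_pow_self (by norm_num)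
  set a := dfac (2 * 8191 ^ (N + 1)) ^ 2 + 4 ^ (2 * 8191 ^ (N + 1)) with ha
  have hne : a ≠ 1 := by
    have h1 : 1 < 4 ^ (2 * 8191 ^ (N + 1)) := Nat.one_lt_pow (by omega) (by norm_num)
    omega
  obtain ⟨h1, h2, h3⟩ := pillai_dfac (N + 1) (by omega) a.minFac (Nat.minFac_prime hne)
    (Nat.minFac_dvd a)
  exact ⟨a.minFac, ⟨h3, h1⟩, by omega⟩

theorem infinite_three : {p : ℕ | Pillai p ∧ p % 4 = 3}.Infinite := by
  have h := infinite_outside 4 (by norm_num) ⊥ (by
    rw [Subgroup.mem_bot]; decide)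
  refine (h.sdiff (Set.finite_singleton 2)).mono ?_
  rintro p ⟨⟨hp, hu⟩, h2⟩
  refine ⟨hp, ?_⟩
  have h1 := hu 1 (Subgroup.one_mem _)
  have hodd : p % 2 = 1 := hp.1.eq_two_or_odd.resolve_left (by simpa using h2)
  have hne : p % 4 ≠ 1 := by
    intro h4
    apply h1
    have : ((1 : ℕ) : ZMod 4) = (p : ZMod 4) := by
      rw [ZMod.natCast_eq_natCast_iff]
      exact h4.symm
    simpa using this
  omega

end Pool.Agent.Helper45.Pillai
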